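import Pool.Agent.H30.EE.TargetsH
import Pool.Agent.H27.LV.Curve

/-!
# MP_70ba79_ag, board `ee_modules`, module PBA: primitive families can be extended
-/

set_option autoImplicit false

namespace Pool.Agent.H96.EE

open MvPolynomial SC Pool.Agent.H27.LV Pool.Agent.H17.VG Pool.Agent.H30.EE

section

variable {k K : Type} [Field k] [Field K] [Algebra k K] {v : DV k K} {ι : Type}

theorem ge_prod0 {κ : Type} (s : Finset κ) (f : κ → K) (h : ∀ i ∈ s, ge v 0 (f i)) :
    ge v 0 (∏ i ∈ s, f i) := by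
  classical
  induction s using Finset.induction_on with
  | empty =>
    rw [Finset.prod_empty]
    exact ge_one v
  | insert a s ha ih =>
    rw [Finset.prod_insert ha]
    have h1 := (h a (Finset.mem_insert_self _ _)).mul
      (ih fun i hi => h i (Finset.mem_insert_of_mem hi))
    rwa [add_zero] at h1

theorem ge_det0 {m : ℕ} (M : Matrix (Fin m) (Fin m) K) (h : ∀ i j, ge v 0 (M i j)) :
    ge v 0 M.det := by
  classical
  rw [Matrix.det_apply]
  refine ge_sum v _ _ _ fun σ _ => ?_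
  have h1 : ge v 0 (∏ i, M (σ i) i) := ge_prod0 _ _ fun i _ => h _ _
  rcases Int.units_eq_one_or (Equiv.Perm.sign σ) with h2 | h2
  · rw [h2, one_smul]
    exact h1
  · rw [h2, Units.neg_smul, one_smul]
    exact h1.neg

theorem ge_mnr0 {m : ℕ} (u : Fin m → ι → K) (h : ∀ a i, ge v 0 (u a i)) (J : Fin m → ι) :
    ge v 0 (mnr u J) := ge_det0 _ fun _ _ => h _ _

theorem Prm_cast {m n : ℕ} (h : m = n) {u : Fin n → ι → K} (hu : Prm v u) :
    Prm v (u ∘ Fin.cast h) := by
  subst h
  exact hu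

/-- a family of integral vectors with a minor which is a unit is primitive -/
theorem Prm_of_unit (hMO : T_MO) [Finite ι] {m : ℕ} (u : Fin m → ι → K)
    (h : ∀ a i, ge v 0 (u a i)) (J : Fin m → ι) (hJ : mnr u J ≠ 0) (hJ0 : v.ord (mnr u J) = 0) :
    Prm v u := by
  have hne : mnr u ≠ 0 := fun h0 => hJ (by rw [h0]; rfl)
  obtain ⟨h1, h2, h3, -, -⟩ := (hMO k K v (Fin m → ι) (mnr u)).2 hne
  refine ⟨h, hne, le_antisymm ?_ (h3 0 (ge_mnr0 u h))⟩
  rcases h1 J with h4 | h4
  · exact absurd h4 hJ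
  · omega

theorem mnr_snoc {m : ℕ} (b : Fin m → ι → K) (w : ι → K) (J : Fin m → ι) (i : ι)
    (hw : ∀ c, w (J c) = 0) :
    mnr (Fin.snoc (α := fun _ => ι → K) b w) (Fin.snoc (α := fun _ => ι) J i) =
      mnr b J * w i := by
  unfold mnr
  rw [Matrix.det_succ_row _ (Fin.last m), Fin.sum_univ_castSucc]
  rw [Finset.sum_eq_zero, zero_add]
  · have h1 : ((-1 : K)) ^ ((Fin.last m : ℕ) + (Fin.last m : ℕ)) = 1 := by
      rw [← two_mul, pow_mul]
      norm_num
    rw [h1, one_mul]
    have h2 : (Matrix.of fun a b_1 : Fin (m + 1) =>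
        (Fin.snoc (α := fun _ => ι → K) b w a) (Fin.snoc (α := fun _ => ι) J i b_1)).submatrix
          (Fin.last m).succAbove (Fin.last m).succAbove =
        Matrix.of fun a c : Fin m => b a (J c) := by
      ext a c
      simp only [Matrix.submatrix_apply, Matrix.of_apply, Fin.succAbove_last, Fin.snoc_castSucc]
    rw [h2]
    simp only [Matrix.of_apply, Fin.snoc_last]
    ring
  · intro c _
    simp only [Matrix.of_apply, Fin.snoc_last, Fin.snoc_castSucc]
    rw [hw c]
    ring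

/-- one more vector -/
theorem exists_snoc (hMO : T_MO) [Finite ι] {m : ℕ} (b : Fin m → ι → K)
    (U : Submodule K (ι → K)) (hb : Prm v b) (hbU : Submodule.span K (Set.range b) ≤ U)
    (u : ι → K) (huU : u ∈ U) (hub : u ∉ Submodule.span K (Set.range b)) :
    ∃ w ∈ U, Prm v (Fin.snoc (α := fun _ => ι → K) b w) := by
  classical
  obtain ⟨-, ⟨J, hJ, hJ0⟩, -, -, -⟩ := (hMO k K v (Fin m → ι) (mnr b)).2 hb.ne
  rw [hb.ord] at hJ0
  obtain ⟨Bm, hBm⟩ : ∃ Bm : Matrix (Fin m) (Fin m) K, Bm = Matrix.of fun a c => b a (J c) :=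
    ⟨_, rfl⟩
  have hdet : Bm.det ≠ 0 := by rw [hBm]; exact hJ
  have hunit : IsUnit Bm.det := isUnit_iff_ne_zero.2 hdet
  obtain ⟨l, hl⟩ : ∃ l : Fin m → K, l = Matrix.vecMul (fun c => u (J c)) Bm⁻¹ := ⟨_, rfl⟩
  have hlB : Matrix.vecMul l Bm = fun c => u (J c) := by
    rw [hl, Matrix.vecMul_vecMul, Matrix.nonsing_inv_mul _ hunit, Matrix.vecMul_one]
  obtain ⟨w0, hw0⟩ : ∃ w0 : ι → K, w0 = u - ∑ a, l a • b a := ⟨_, rfl⟩
  have hsum : ∑ a, l a • b a ∈ Submodule.span K (Set.range b) :=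
    Submodule.sum_mem _ fun a _ => Submodule.smul_mem _ _ (Submodule.subset_span ⟨a, rfl⟩)
  have hw0U : w0 ∈ U := by
    rw [hw0]
    exact U.sub_mem huU (hbU hsum)
  have hw0ne : w0 ≠ 0 := by
    intro h0
    rw [hw0, sub_eq_zero] at h0
    exact hub (h0 ▸ hsum)
  have hw0J : ∀ c, w0 (J c) = 0 := by
    intro c
    have h1 := congrFun hlB c
    rw [hw0, Pi.sub_apply, Finset.sum_apply]
    simp only [Pi.smul_apply, smul_eq_mul]
    rw [← h1, hBm]
    simp only [Matrix.vecMul, dotProduct, Matrix.of_apply, sub_self]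
  obtain ⟨h1, ⟨i, hi, hi0⟩, -, -, -⟩ := (hMO k K v ι w0).2 hw0ne
  obtain ⟨e, he⟩ : ∃ e : ℤ, e = mo v w0 := ⟨_, rfl⟩
  rw [← he] at h1 hi0
  obtain ⟨t, ht⟩ : ∃ t : K, t = v.unif ^ (-e) := ⟨_, rfl⟩
  have ht0 : t ≠ 0 := by rw [ht]; exact v.unif_zpow_ne_zero _
  have htord : v.ord t = -e := by rw [ht]; exact v.ord_unif_zpow _
  refine ⟨t • w0, U.smul_mem _ hw0U, ?_⟩
  have hwi : (t • w0) i ≠ 0 := mul_ne_zero ht0 hi
  have hwi0 : v.ord ((t • w0) i) = 0 := by
    rw [Pi.smul_apply, smul_eq_mul, v.ord_mul' ht0 hi, htord, hi0]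
    omega
  have hwint : ∀ j, ge v 0 ((t • w0) j) := by
    intro j
    have h2 : ge v (-e) t := Or.inr (by rw [htord])
    have h3 := h2.mul (h1 j)
    rwa [neg_add_cancel] at h3
  have hwJ : ∀ c, (t • w0) (J c) = 0 := fun c => by
    rw [Pi.smul_apply, hw0J c, smul_zero]
  have hm := mnr_snoc b (t • w0) J i hwJ
  refine Prm_of_unit hMO _ ?_ (Fin.snoc (α := fun _ => ι) J i) ?_ ?_
  · intro a
    refine Fin.lastCases ?_ (fun a => ?_) a
    · intro j
      rw [Fin.snoc_last]
      exact hwint j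
    · intro j
      rw [Fin.snoc_castSucc]
      exact hb.int a j
  · rw [hm]
    exact mul_ne_zero hJ hwi
  · rw [hm, v.ord_mul' hJ hwi, hJ0, hwi0]
    rfl

theorem exists_ext (hMO : T_MO) (hCBM : T_CBM) [Finite ι] (U : Submodule K (ι → K)) (d : ℕ) :
    ∀ (m : ℕ) (b : Fin m → ι → K), Prm v b → Submodule.span K (Set.range b) ≤ U →
      Module.finrank K U = m + d → ∃ B : Fin (m + d) → ι → K,
        (∀ i : Fin m, B (Fin.castAdd d i) = b i) ∧ Prm v B ∧
        Submodule.span K (Set.range B) = U := by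
  have := Fintype.ofFinite ι
  induction d with
  | zero =>
    intro m b hb hbU hm
    refine ⟨b, fun i => rfl, hb, ?_⟩
    have hind : LinearIndependent K b := ((hCBM K m ι b).1).2 hb.ne
    refine Submodule.eq_of_le_of_finrank_eq hbU ?_
    rw [finrank_span_eq_card hind, Fintype.card_fin, hm]
    rfl
  | succ d ih =>
    intro m b hb hbU hm
    have hnot : ¬ U ≤ Submodule.span K (Set.range b) := by
      intro hle
      have h1 := Submodule.finrank_mono hle
      have h2 := finrank_range_le_card (R := K) b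
      rw [Fintype.card_fin] at h2
      have h3 : Module.finrank K (Submodule.span K (Set.range b)) ≤ m := h2
      omega
    obtain ⟨u, huU, hub⟩ := SetLike.not_le_iff_exists.1 hnot
    obtain ⟨w, hwU, hw⟩ := exists_snoc hMO b U hb hbU u huU hub
    have hspan : Submodule.span K (Set.range (Fin.snoc (α := fun _ => ι → K) b w)) ≤ U := by
      rw [Submodule.span_le]
      rintro _ ⟨a, rfl⟩
      refine Fin.lastCases ?_ (fun a => ?_) a
      · simp only [Fin.snoc_last]
        exact hwU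
      · simp only [Fin.snoc_castSucc]
        exact hbU (Submodule.subset_span ⟨a, rfl⟩)
    obtain ⟨B, hB1, hB2, hB3⟩ := ih (m + 1) (Fin.snoc (α := fun _ => ι → K) b w) hw hspan
      (by omega)
    have hcast : m + (d + 1) = m + 1 + d := by omega
    refine ⟨B ∘ Fin.cast hcast, ?_, Prm_cast hcast hB2, ?_⟩
    · intro i
      have h1 := hB1 (Fin.castSucc i)
      rw [Fin.snoc_castSucc] at h1
      rw [← h1]
      rfl
    · rw [← hB3]
      congr 1
      exact (finCongr hcast).surjective.range_comp B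

end

theorem pf_PBA (hMO : T_MO) (hCBM : T_CBM) : T_PBA := by
  intro k K _ _ _ _ _ _ htr v ι _ m b U hb hbU
  have := Fintype.ofFinite ι
  have hind : LinearIndependent K b := ((hCBM K m ι b).1).2 hb.ne
  have hle : m ≤ Module.finrank K U := by
    have h1 := Submodule.finrank_mono hbU
    rwa [finrank_span_eq_card hind, Fintype.card_fin] at h1
  obtain ⟨d, hd⟩ := Nat.exists_eq_add_of_le hle
  obtain ⟨B, hB1, hB2, hB3⟩ := exists_ext hMO hCBM U d m b hb hbU hd
  have hB : Fin.append b (fun j => B (Fin.natAdd m j)) = B := by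
    funext i
    refine Fin.addCases (fun i => ?_) (fun i => ?_) i
    · rw [Fin.append_left, hB1]
    · rw [Fin.append_right]
  exact ⟨d, fun j => B (Fin.natAdd m j), by rw [hB]; exact hB2, by rw [hB]; exact hB3⟩

end Pool.Agent.H96.EE
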