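import Pool.Agent.H30.EE.TargetsH
import Pool.Agent.H27.LV.Curve
import Pool.Agent.H96.EE.PBA

/-!
# MP_70ba79_ag, board `ee_modules`, module GAU: the Gauss lemma
-/

set_option autoImplicit false

namespace Pool.Agent.H96.EE

open MvPolynomial SC Pool.Agent.H27.LV Pool.Agent.H17.VG Pool.Agent.H30.EE

section

variable {k K : Type} [Field k] [Field K] [Algebra k K] {v : DV k K} {n : ℕ}

theorem ge0_iff {x : K} : ge v 0 x ↔ 0 ≤ v.ord x := by
  constructor
  · rintro (h | h)
    · rw [h, v.ord_zero]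
    · exact h
  · exact fun h => Or.inr h

theorem red_eq_zero_of_ge1 {x : K} (h : ge v 1 x) : v.red x = 0 := by
  rcases h with h | h
  · rw [h, v.red_zero]
  · exact v.red_eq_zero_of_pos (by omega)

theorem ge1_of_red {x : K} (h : 0 ≤ v.ord x) (h0 : v.red x = 0) : ge v 1 x := by
  rcases (v.red_eq_zero_iff h).1 h0 with h1 | h1
  · exact Or.inl h1
  · exact Or.inr (by omega)

/-- a polynomial with integral coefficients lifts -/
theorem exists_lift (G : MvPolynomial (Fin (n + 1)) K) (h : ∀ M, ge v 0 (coeff M G)) :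
    ∃ P : MvPolynomial (Fin (n + 1)) v.vs, MvPolynomial.map v.vs.subtype P = G := by
  have h1 : G ∈ Set.range (MvPolynomial.map (σ := Fin (n + 1)) v.vs.subtype) := by
    rw [mem_range_map_iff_coeffs_subset]
    intro x hx
    rw [Finset.mem_coe, mem_coeffs_iff] at hx
    obtain ⟨M, -, hM⟩ := hx
    exact ⟨⟨x, by
      show 0 ≤ v.ord x
      rw [hM]
      exact ge0_iff.1 (h M)⟩, rfl⟩
  exact h1

theorem coeff_red (P : MvPolynomial (Fin (n + 1)) v.vs) (M : Fin (n + 1) →₀ ℕ) :
    coeff M (MvPolynomial.map (IsLocalRing.residue v.vs) P) =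
      v.red (coeff M (MvPolynomial.map v.vs.subtype P)) := by
  rw [coeff_map, coeff_map]
  exact (v.red_coe (coeff M P)).symm

/-- Gauss lemma at one place -/
theorem gauss0 (P G : MvPolynomial (Fin (n + 1)) K) (hP : ∀ M, ge v 0 (coeff M P))
    (hG : ∀ M, ge v 0 (coeff M G)) (M₀ : Fin (n + 1) →₀ ℕ) (h0 : coeff M₀ P ≠ 0)
    (h1 : v.ord (coeff M₀ P) = 0) (h : ∀ M, ge v 1 (coeff M (P * G))) :
    ∀ M, ge v 1 (coeff M G) := by
  obtain ⟨P', hP'⟩ := exists_lift P hP
  obtain ⟨G', hG'⟩ := exists_lift G hG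
  have hmul : MvPolynomial.map (IsLocalRing.residue v.vs) P' *
      MvPolynomial.map (IsLocalRing.residue v.vs) G' = 0 := by
    rw [← map_mul]
    ext M
    rw [coeff_red, map_mul, hP', hG', coeff_zero]
    exact red_eq_zero_of_ge1 (h M)
  have hne : MvPolynomial.map (IsLocalRing.residue v.vs) P' ≠ 0 := by
    intro h2
    have h3 := congrArg (coeff M₀) h2
    rw [coeff_red, hP', coeff_zero] at h3
    exact v.red_ne_zero h0 h1 h3
  have hz := (mul_eq_zero.1 hmul).resolve_left hne
  intro M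
  have h4 := congrArg (coeff M) hz
  rw [coeff_red, hG', coeff_zero] at h4
  exact ge1_of_red (ge0_iff.1 (hG M)) h4

/-- coefficient vector of a polynomial -/
noncomputable def cv (d : ℕ) : MvPolynomial (Fin (n + 1)) K →ₗ[K] (Mon (n + 1) d → K) where
  toFun := fun G M => coeff (fs M.1) G
  map_add' := fun _ _ => rfl
  map_smul' := fun _ _ => rfl

theorem frL_cv {d : ℕ} {G : MvPolynomial (Fin (n + 1)) K} (hG : G.IsHomogeneous d) :
    frL K n d (cv d G) = G := frm_coeff hG

theorem frL_inj (d : ℕ) : Function.Injective (frL K n d) := by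
  rw [← LinearMap.ker_eq_bot, LinearMap.ker_eq_bot']
  intro t ht
  exact frm_zero ht

theorem cv_frL {d : ℕ} (t : Mon (n + 1) d → K) : cv d (frL K n d t) = t :=
  frL_inj d (frL_cv (frm_homog t))

theorem frL_homog {d : ℕ} (t : Mon (n + 1) d → K) : (frL K n d t).IsHomogeneous d := frm_homog t

/-- the coefficients of a form which are not in the list vanish -/
theorem coeff_homog {d : ℕ} {G : MvPolynomial (Fin (n + 1)) K} (hG : G.IsHomogeneous d)
    (M : Fin (n + 1) →₀ ℕ) : coeff M G = 0 ∨ ∃ M' : Mon (n + 1) d, coeff M G = cv d G M' := by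
  by_cases h : coeff M G = 0
  · exact Or.inl h
  right
  have h1 : ∑ i, M i = d := by
    rw [← Finsupp.degree_eq_sum]
    by_contra h2
    exact h (hG.coeff_eq_zero h2)
  refine ⟨⟨M, h1⟩, ?_⟩
  show coeff M G = coeff (fs M) G
  rw [fs_coe]

/-- multiplication by a form, on coefficients -/
noncomputable def mulL (a b : ℕ) (p : MvPolynomial (Fin (n + 1)) K) :
    (Mon (n + 1) a → K) →ₗ[K] (Mon (n + 1) (a + b) → K) :=
  (cv (a + b)).comp ((LinearMap.mulLeft K p).comp (frL K n a))

theorem frL_mulL {a b : ℕ} {p : MvPolynomial (Fin (n + 1)) K} (hp : p.IsHomogeneous b)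
    (t : Mon (n + 1) a → K) : frL K n (a + b) (mulL a b p t) = p * frL K n a t := by
  refine frL_cv ?_
  have h1 := hp.mul (frL_homog t)
  rwa [Nat.add_comm b a] at h1

theorem mulL_inj {a b : ℕ} {p : MvPolynomial (Fin (n + 1)) K} (hp0 : p ≠ 0)
    (hp : p.IsHomogeneous b) : Function.Injective (mulL a b p) := by
  intro s t h
  have h1 := congrArg (frL K n (a + b)) h
  rw [frL_mulL hp, frL_mulL hp] at h1
  exact frL_inj a (mul_left_cancel₀ hp0 h1)

theorem comap_mulW {a b : ℕ} {p : MvPolynomial (Fin (n + 1)) K}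
    (hp : p.IsHomogeneous b) {W : Submodule K (MvPolynomial (Fin (n + 1)) K)}
    (hW : W ≤ Sd K n a) :
    (mulW p W).comap (frL K n (a + b)) = (W.comap (frL K n a)).map (mulL a b p) := by
  apply le_antisymm
  · intro x hx
    obtain ⟨w, hw, hwx⟩ := hx
    have h1 : frL K n a (cv a w) = w := frL_cv (hW hw)
    refine ⟨cv a w, ?_, ?_⟩
    · show frL K n a (cv a w) ∈ W
      rw [h1]
      exact hw
    · apply frL_inj (a + b)
      rw [frL_mulL hp, h1]
      exact hwx
  · rintro _ ⟨t, ht, rfl⟩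
    refine ⟨frL K n a t, ht, ?_⟩
    rw [frL_mulL hp]
    rfl

/-- the product of a primitive form and a primitive family is primitive -/
theorem Prm_mul [IsAlgClosed k] [CharZero k] [Algebra.EssFiniteType k K]
    (htr : Algebra.trdeg k K = 1) (hMO : T_MO) (hPSA : T_PSA) {a b m : ℕ}
    {p : MvPolynomial (Fin (n + 1)) K} (hp0 : p ≠ 0) (hp : p.IsHomogeneous b)
    (hpm : mo v (cv b p) = 0) {w : Fin m → Mon (n + 1) a → K} (hw : Prm v w) :
    Prm v fun j => mulL a b p (w j) := by
  have hcp : cv b p ≠ 0 := by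
    intro h0
    apply hp0
    rw [← frL_cv hp, h0, map_zero]
  obtain ⟨h1, ⟨M₀, hM₀, hM₀'⟩, -, -, -⟩ := (hMO k K v (Mon (n + 1) b) (cv b p)).2 hcp
  rw [hpm] at h1 hM₀'
  have hpint : ∀ M, ge v 0 (coeff M p) := by
    intro M
    rcases coeff_homog hp M with h2 | ⟨M', h2⟩
    · rw [h2]; exact ge_zero v 0
    · rw [h2]; exact h1 M'
  have hfr : ∀ (t : Mon (n + 1) a → K) (z : ℤ), (∀ i, ge v z (t i)) →
      ∀ M, ge v z (coeff M (frL K n a t)) := by
    intro t z ht M
    rcases coeff_homog (frL_homog t) M with h2 | ⟨M', h2⟩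
    · rw [h2]; exact ge_zero v z
    · rw [h2, cv_frL]; exact ht M'
  have hint : ∀ t : Mon (n + 1) a → K, (∀ i, ge v 0 (t i)) → ∀ i, ge v 0 (mulL a b p t i) := by
    intro t ht i
    show ge v 0 (coeff (fs i.1) (p * frL K n a t))
    rw [coeff_mul]
    refine ge_sum v _ _ _ fun x _ => ?_
    have h3 := (hpint x.1).mul (hfr t 0 ht x.2)
    rwa [add_zero] at h3
  have hU := hPSA k K htr v (Mon (n + 1) (a + b)) m (fun j => mulL a b p (w j))
    (fun j => hint (w j) (hw.int j))
  have hV := hPSA k K htr v (Mon (n + 1) a) m w hw.int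
  rw [hU.2]
  intro c hc
  apply hV.2.1 hw c
  obtain ⟨t, ht⟩ : ∃ t : Mon (n + 1) a → K, t = ∑ j, algebraMap k K (c j) • w j := ⟨_, rfl⟩
  have hti : ∀ i, t i = ∑ j, algebraMap k K (c j) * w j i := by
    intro i
    rw [ht, Finset.sum_apply]
    rfl
  have htint : ∀ i, ge v 0 (t i) := by
    intro i
    rw [hti]
    refine ge_sum v _ _ _ fun j _ => ?_
    have h3 := (ge_const v (c j)).mul (hw.int j i)
    rwa [add_zero] at h3
  have hLt : ∀ i, mulL a b p t i = ∑ j, algebraMap k K (c j) * mulL a b p (w j) i := by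
    intro i
    rw [ht, map_sum, Finset.sum_apply]
    refine Finset.sum_congr rfl fun j _ => ?_
    rw [map_smul]
    rfl
  have h4 : ∀ M, ge v 1 (coeff M (p * frL K n a t)) := by
    intro M
    rw [← frL_mulL hp]
    rcases coeff_homog (frL_homog (mulL a b p t)) M with h2 | ⟨M', h2⟩
    · rw [h2]; exact ge_zero v 1
    · rw [h2, cv_frL, hLt]; exact hc M'
  have h5 := gauss0 p (frL K n a t) hpint (hfr t 0 htint) (fs M₀.1) hM₀ hM₀' h4
  intro i
  rw [← hti]
  have h6 := h5 (fs i.1)
  have h7 : coeff (fs i.1) (frL K n a t) = cv a (frL K n a t) i := rfl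
  rw [h7, cv_frL] at h6
  exact h6

theorem mo_mnr_mul [IsAlgClosed k] [CharZero k] [Algebra.EssFiniteType k K]
    (htr : Algebra.trdeg k K = 1) (hMO : T_MO) (hCBM : T_CBM) (hPBA : T_PBA) (hPSA : T_PSA)
    {a b m : ℕ} {p : MvPolynomial (Fin (n + 1)) K} (hp0 : p ≠ 0) (hp : p.IsHomogeneous b)
    (v : DV k K) {u : Fin m → Mon (n + 1) a → K} (hu : LinearIndependent K u) :
    mo v (mnr fun j => mulL a b p (u j)) = mo v (mnr u) + m * mo v (cv b p) := by
  -- a primitive basis
  have hb0 : Prm v (Fin.elim0 : Fin 0 → Mon (n + 1) a → K) := by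
    refine Prm_of_unit hMO _ (fun i => i.elim0) Fin.elim0 ?_ ?_
    · unfold mnr
      rw [Matrix.det_fin_zero]
      exact one_ne_zero
    · unfold mnr
      rw [Matrix.det_fin_zero]
      exact v.ord_one
  obtain ⟨m', c, hc, hcU⟩ := hPBA k K htr v (Mon (n + 1) a) 0 Fin.elim0
    (Submodule.span K (Set.range u)) hb0 (by
      rw [Submodule.span_le]
      rintro _ ⟨i, -⟩
      exact i.elim0)
  have hcind : LinearIndependent K (Fin.append Fin.elim0 c) :=
    ((hCBM K _ (Mon (n + 1) a) _).1).2 hc.ne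
  have hm : m = 0 + m' := by
    have h1 := finrank_span_eq_card hu
    rw [← hcU, finrank_span_eq_card hcind, Fintype.card_fin, Fintype.card_fin] at h1
    exact h1.symm
  obtain ⟨w, hw⟩ : ∃ w : Fin m → Mon (n + 1) a → K,
    w = Fin.append Fin.elim0 c ∘ Fin.cast hm := ⟨_, rfl⟩
  have hwP : Prm v w := by
    rw [hw]
    exact Prm_cast hm hc
  have hwU : Submodule.span K (Set.range w) = Submodule.span K (Set.range u) := by
    rw [← hcU, hw]
    congr 1
    exact (finCongr hm).surjective.range_comp _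
  have hA : ∀ j, ∃ A : Fin m → K, ∑ b, A b • w b = u j := by
    intro j
    have h1 : u j ∈ Submodule.span K (Set.range w) := by
      rw [hwU]
      exact Submodule.subset_span ⟨j, rfl⟩
    exact (Submodule.mem_span_range_iff_exists_fun K).1 h1
  choose A hA using hA
  have hu1 : u = fun j i => ∑ b, (Matrix.of A) j b * w b i := by
    funext j i
    rw [← hA j, Finset.sum_apply]
    rfl
  have hmu : mnr u = (Matrix.of A).det • mnr w := by
    rw [hu1]
    exact (hCBM K m _ w).2 _
  have hmune : mnr u ≠ 0 := ((hCBM K m _ u).1).1 hu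
  have hdet : (Matrix.of A).det ≠ 0 := by
    intro h0
    rw [h0, zero_smul] at hmu
    exact hmune hmu
  -- a primitive multiple of the form
  have hcp : cv b p ≠ 0 := by
    intro h0
    apply hp0
    rw [← frL_cv hp, h0, map_zero]
  obtain ⟨e, he⟩ : ∃ e : ℤ, e = mo v (cv b p) := ⟨_, rfl⟩
  have hPI : v.unif ^ (-e) ≠ 0 := v.unif_zpow_ne_zero _
  obtain ⟨p0, hp0'⟩ : ∃ p0 : MvPolynomial (Fin (n + 1)) K, p0 = v.unif ^ (-e) • p := ⟨_, rfl⟩
  have hp00 : p0 ≠ 0 := by
    rw [hp0']
    exact smul_ne_zero hPI hp0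
  have hp0h : p0.IsHomogeneous b := by
    rw [hp0', smul_eq_C_mul]
    have h1 := (isHomogeneous_C (Fin (n + 1)) (v.unif ^ (-e))).mul hp
    rwa [zero_add] at h1
  have hp0m : mo v (cv b p0) = 0 := by
    rw [hp0', map_smul, ((hMO k K v _ (cv b p)).2 hcp).2.2.2.1 _ hPI, v.ord_unif_zpow, ← he]
    omega
  have hP0 := Prm_mul (v := v) htr hMO hPSA hp00 hp0h hp0m hwP
  have hPe : v.unif ^ e ≠ 0 := v.unif_zpow_ne_zero _
  have hL : ∀ t, mulL a b p t = v.unif ^ e • mulL a b p0 t := by
    intro t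
    apply frL_inj (a + b)
    rw [map_smul, frL_mulL hp, frL_mulL hp0h, hp0', smul_mul_assoc, smul_smul, ← zpow_add₀
      v.unif_ne_zero, add_neg_cancel, zpow_zero, one_smul]
  have hu2 : (fun j => mulL a b p (u j)) =
      fun j i => ∑ b', (Matrix.of fun j b' => A j b' * v.unif ^ e) j b' *
        mulL a b p0 (w b') i := by
    funext j i
    rw [← hA j, map_sum, Finset.sum_apply]
    refine Finset.sum_congr rfl fun b' _ => ?_
    rw [map_smul, hL]
    simp only [Pi.smul_apply, smul_eq_mul, Matrix.of_apply]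
    ring
  have hdet2 : (Matrix.of fun j b' => A j b' * v.unif ^ e).det =
      (v.unif ^ e) ^ m * (Matrix.of A).det := by
    have h1 : (Matrix.of fun j b' => A j b' * v.unif ^ e) = v.unif ^ e • Matrix.of A := by
      ext i j
      simp only [Matrix.of_apply, Matrix.smul_apply, smul_eq_mul]
      ring
    rw [h1, Matrix.det_smul, Fintype.card_fin]
  have hmu2 : mnr (fun j => mulL a b p (u j)) =
      ((v.unif ^ e) ^ m * (Matrix.of A).det) • mnr fun j => mulL a b p0 (w j) := by
    rw [hu2, ← hdet2]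
    exact (hCBM K m _ fun j => mulL a b p0 (w j)).2 _
  have hne : (v.unif ^ e) ^ m * (Matrix.of A).det ≠ 0 := mul_ne_zero (pow_ne_zero _ hPe) hdet
  rw [hmu2, ((hMO k K v _ (mnr fun j => mulL a b p0 (w j))).2 hP0.ne).2.2.2.1 _ hne, hP0.ord,
    hmu, ((hMO k K v _ (mnr w)).2 hwP.ne).2.2.2.1 _ hdet, hwP.ord,
    v.ord_mul' (pow_ne_zero _ hPe) hdet, v.ord_pow, v.ord_unif_zpow, ← he]
  ring

end

theorem pf_GAU (hMO : T_MO) (hHG : T_HG) (hCBM : T_CBM) (hPBA : T_PBA) (hPSA : T_PSA)
    (hDGB : T_DGB) : T_GAU := by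
  intro k K _ _ _ _ _ _ htr n a b p hp0 hp W hW
  obtain ⟨U, hU⟩ : ∃ U, U = W.comap (frL K n a) := ⟨_, rfl⟩
  have hWU : W = U.map (frL K n a) := by
    rw [hU]
    apply le_antisymm
    · intro w hw
      refine ⟨cv a w, ?_, frL_cv (hW hw)⟩
      show frL K n a (cv a w) ∈ W
      rw [frL_cv (hW hw)]
      exact hw
    · exact Submodule.map_comap_le _ _
  have hfin : Module.finrank K W = Module.finrank K U := by
    rw [hWU]
    exact (LinearEquiv.finrank_eq (Submodule.equivMapOfInjective _ (frL_inj a) U)).symm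
  obtain ⟨m, u, hm, huind, huspan⟩ : ∃ (m : ℕ) (u : Fin m → Mon (n + 1) a → K),
      m = Module.finrank K U ∧ LinearIndependent K u ∧ Submodule.span K (Set.range u) = U := by
    refine ⟨_, fun j => ((Module.finBasis K U j : U) : Mon (n + 1) a → K), rfl,
      (Module.finBasis K U).linearIndependent.map' U.subtype U.ker_subtype, ?_⟩
    have h1 := (Module.finBasis K U).span_eq
    have h2 := congrArg (Submodule.map U.subtype) h1
    rw [Submodule.map_span, Submodule.map_top, Submodule.range_subtype, ← Set.range_comp] at h2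
    exact h2
  have hdu : dS k n a W = -hgt k (mnr u) := by
    unfold dS
    rw [← hU, ← huspan]
    exact hDGB k K htr _ _ u huind
  have hu'ind : LinearIndependent K fun j => mulL a b p (u j) :=
    huind.map' _ (LinearMap.ker_eq_bot.2 (mulL_inj hp0 hp))
  have hdu' : dS k n (a + b) (mulW p W) = -hgt k (mnr fun j => mulL a b p (u j)) := by
    unfold dS
    rw [comap_mulW hp hW, ← hU, ← huspan, Submodule.map_span, ← Set.range_comp]
    exact hDGB k K htr _ _ (fun j => mulL a b p (u j)) hu'ind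
  rw [hdu, hdu', hfin, ← hm]
  have hF1 := (hHG k K htr _ (mnr u)).1
  have hF2 := (hHG k K htr _ (cv b p)).1
  have hloc : ∀ v : DV k K, mo v (mnr fun j => mulL a b p (u j)) =
      mo v (mnr u) + m * mo v (cv b p) := fun v =>
    mo_mnr_mul htr hMO hCBM hPBA hPSA hp0 hp v huind
  have hFp : hF k b p = -∑ᶠ v : DV k K, mo v (cv b p) := rfl
  unfold hgt at *
  rw [hFp, neg_neg, neg_neg, finsum_congr hloc, finsum_add_distrib hF1 (hF2.subset ?_),
    ← mul_finsum]
  · ring
  · intro v hv h0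
    apply hv
    show (m : ℤ) * mo v (cv b p) = 0
    rw [h0, mul_zero]

end Pool.Agent.H96.EE
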