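import Pool.Agent.H30.EE.TargetsI
import Pool.Agent.H27.LV.Curve
import Pool.Agent.H8.LV.MRK
import Pool.Agent.H58.LV.DFI
import Pool.Agent.H96.EE.GAU

/-!
# MP_70ba79_ag, board `ee_modules`, module HIN: the height inequality
-/

set_option autoImplicit false

namespace Pool.Agent.H96.EE

open MvPolynomial SC Pool.Agent.H27.LV Pool.Agent.H17.VG Pool.Agent.H30.EE

section Charts

variable {K : Type} [Field K] {n r : ℕ}

/-- charts exist -/
theorem exists_cht (L : Submodule K (Fin (n + 1) → K)) (hL : Module.finrank K L = r + 1) :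
    ∃ (J : Fin (r + 1) → Fin (n + 1)) (z : Fin (r + 1) → Fin (n + 1) → K), Cht L J z := by
  classical
  obtain ⟨u, hu1, hu2⟩ : ∃ u : Fin (r + 1) → Fin (n + 1) → K,
      LinearIndependent K u ∧ Submodule.span K (Set.range u) = L := by
    have b := Module.finBasisOfFinrankEq K L hL
    refine ⟨fun j => ((b j : L) : Fin (n + 1) → K),
      b.linearIndependent.map' L.subtype L.ker_subtype, ?_⟩
    have h2 := congrArg (Submodule.map L.subtype) b.span_eq
    rw [Submodule.map_span, Submodule.map_top, Submodule.range_subtype, ← Set.range_comp] at h2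
    exact h2
  obtain ⟨J, hJ⟩ := mrk K (Fin (n + 1)) (Fin (r + 1)) (Matrix.of fun j a => u a j) (by
    intro c hc
    have h1 : ∑ a, c a • u a = 0 := by
      funext j
      have h2 := congrFun hc j
      rw [Finset.sum_apply]
      simp only [Matrix.mulVec, dotProduct, Matrix.of_apply, Pi.zero_apply] at h2
      simp only [Pi.smul_apply, smul_eq_mul, Pi.zero_apply]
      rw [← h2]
      exact Finset.sum_congr rfl fun a _ => mul_comm _ _
    funext a
    exact Fintype.linearIndependent_iff.1 hu1 c h1 a)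
  obtain ⟨B, hB⟩ : ∃ B : Matrix (Fin (r + 1)) (Fin (r + 1)) K, B = Matrix.of fun a i => u a (J i) :=
    ⟨_, rfl⟩
  have hBdet : IsUnit B.det := by
    rw [isUnit_iff_ne_zero, ← Matrix.det_transpose, hB]
    exact hJ
  obtain ⟨z, hz⟩ : ∃ z : Fin (r + 1) → Fin (n + 1) → K, z = fun i j => ∑ a, B⁻¹ i a * u a j :=
    ⟨_, rfl⟩
  have hzu : ∀ i, z i = ∑ a, B⁻¹ i a • u a := by
    intro i
    rw [hz]
    funext j
    rw [Finset.sum_apply]
    rfl
  have huz : ∀ a, u a = ∑ i, B a i • z i := by
    intro a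
    have h1 : ∑ i, B a i • z i = ∑ b, (B * B⁻¹) a b • u b := by
      simp only [hzu, Finset.smul_sum, smul_smul, Matrix.mul_apply, Finset.sum_smul]
      exact Finset.sum_comm
    rw [h1, Matrix.mul_nonsing_inv _ hBdet]
    simp only [Matrix.one_apply, ite_smul, one_smul, zero_smul, Finset.sum_ite_eq,
      Finset.mem_univ, if_true]
  refine ⟨J, z, ?_, ?_⟩
  · rw [← hu2]
    apply le_antisymm
    · rw [Submodule.span_le]
      rintro _ ⟨i, rfl⟩
      rw [hzu]
      exact Submodule.sum_mem _ fun a _ => Submodule.smul_mem _ _ (Submodule.subset_span ⟨a, rfl⟩)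
    · rw [Submodule.span_le]
      rintro _ ⟨a, rfl⟩
      rw [huz]
      exact Submodule.sum_mem _ fun i _ => Submodule.smul_mem _ _ (Submodule.subset_span ⟨i, rfl⟩)
  · intro i j
    have h1 : z i (J j) = (B⁻¹ * B) i j := by
      rw [hz, hB]
      rfl
    rw [h1, Matrix.nonsing_inv_mul _ hBdet, Matrix.one_apply]

theorem Cht.inj {L : Submodule K (Fin (n + 1) → K)} {J : Fin (r + 1) → Fin (n + 1)}
    {z : Fin (r + 1) → Fin (n + 1) → K} (h : Cht L J z) : Function.Injective J := by
  intro a b hab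
  by_contra hne
  have h1 := h.id a a
  have h2 := h.id a b
  rw [if_pos rfl] at h1
  rw [if_neg hne, ← hab, h1] at h2
  exact one_ne_zero h2

theorem card_row {J : Fin (r + 1) → Fin (n + 1)} (hJ : Function.Injective J) :
    Nat.card (Row J) = (r + 1) * (n - r + 1) := by
  classical
  have h1 : Nat.card {j : Fin (n + 1) // ∀ i, J i ≠ j} + (r + 1) = n + 1 := by
    have e1 : Fin (r + 1) ⊕ {j : Fin (n + 1) // ∀ i, J i ≠ j} ≃ Fin (n + 1) := by
      refine (Equiv.sumCongr (Equiv.ofInjective J hJ) (Equiv.subtypeEquivRight ?_)).trans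
        (Equiv.Set.sumCompl (Set.range J))
      intro j
      rw [Set.mem_compl_iff, Set.mem_range, not_exists]
    have h2 := Nat.card_congr e1
    rw [Nat.card_sum, Nat.card_fin, Nat.card_fin] at h2
    omega
  have h2 : Nat.card (Row J) = (r + 1) + (r + 1) * Nat.card {j : Fin (n + 1) // ∀ i, J i ≠ j} := by
    rw [Nat.card_sum, Nat.card_prod, Nat.card_fin]
  have h3 : Nat.card {j : Fin (n + 1) // ∀ i, J i ≠ j} = n - r := by omega
  rw [h2, h3]
  ring

theorem exists_row_equiv {s : ℕ} {J : Fin (r + 1) → Fin (n + 1)} (hJ : Function.Injective J)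
    (hs : s + 2 = (r + 1) * (n - r + 1)) : Nonempty (Fin s ⊕ Fin 2 ≃ Row J) := by
  have h1 : Nat.card (Fin s ⊕ Fin 2) = Nat.card (Row J) := by
    rw [card_row hJ, Nat.card_sum, Nat.card_fin, Nat.card_fin, hs]
  exact Finite.card_eq.1 h1

end Charts

section

variable {k K : Type} [Field k] [Field K] [Algebra k K] {v : DV k K}

theorem ge_pow {t : ℤ} {x : K} (h : ge v t x) (m : ℕ) : ge v (m * t) (x ^ m) := by
  induction m with
  | zero =>
    rw [pow_zero, Nat.cast_zero, zero_mul]
    exact ge_one v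
  | succ m ih =>
    rw [pow_succ]
    have h1 := ih.mul h
    refine h1.mono ?_
    push_cast
    linarith [add_mul (m : ℤ) 1 t]

theorem ge_of_sq {x : K} (h : x ^ 2 = 1) : ge v 0 x := by
  have hx : x ≠ 0 := by
    rintro rfl
    norm_num at h
  right
  have h1 := v.ord_pow x 2
  rw [h, v.ord_one] at h1
  push_cast at h1
  omega

end

theorem pf_HIN (_hMO : T_MO) (hHG : T_HG) (_hDSP : T_DSP) (hQDD : T_QDD) (hICE : T_ICE)
    (hICC : T_ICC) (_hITL : T_ITL) (hIFR : T_IFR) (hIOM : T_IOM) (hILO : T_ILO) (hILC : T_ILC)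
    (hILG : T_ILG) : T_HIN := by
  classical
  intro R k K _ _ _ _ _ _ _ _ htr n e r F hF hsm D D' hD hDD' hSys hRat x hx hFx S hS L hxL hL
  have hK : CharZero K := charZero_of_injective_algebraMap (algebraMap k K).injective
  have hx0 : x ≠ 0 := hx.ne_zero 0
  have hr : Indep x (fun i => D' (x i)) := by
    have h1 : (fun i => D' (x i)) = fun i => D (x i) := funext fun i => hDD' (x i)
    rw [h1]
    exact hx
  obtain ⟨J, z, hJz⟩ := exists_cht L hL
  -- dimensions
  have hdim := hIFR R K n e r (up K F) D' x L hSys hr hFx hxL hL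
  have hTM : TL R (e + 1) (up K F) x L ≤ Md (e + 1) x := by
    refine Submodule.span_le.2 ?_
    rintro G ⟨hG, -⟩
    exact hG
  have hMS : Md (e + 1) x ≤ Sd K n (e + 1) := inf_le_left
  have hmapM : (((Md (e + 1) x).comap (frL K n (e + 1))).map (frL K n (e + 1))) =
      Md (e + 1) x := by
    apply le_antisymm (Submodule.map_comap_le _ _)
    intro w hw
    refine ⟨cv (e + 1) w, ?_, frL_cv (hMS hw)⟩
    show frL K n (e + 1) (cv (e + 1) w) ∈ Md (e + 1) x
    rw [frL_cv (hMS hw)]
    exact hw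
  have hmapT : (((TL R (e + 1) (up K F) x L).comap (frL K n (e + 1))).map (frL K n (e + 1))) =
      TL R (e + 1) (up K F) x L := by
    apply le_antisymm (Submodule.map_comap_le _ _)
    intro w hw
    refine ⟨cv (e + 1) w, ?_, frL_cv (hMS (hTM hw))⟩
    show frL K n (e + 1) (cv (e + 1) w) ∈ TL R (e + 1) (up K F) x L
    rw [frL_cv (hMS (hTM hw))]
    exact hw
  have hfM := LinearEquiv.finrank_eq (Submodule.equivMapOfInjective _ (frL_inj (n := n) (e + 1))
    ((Md (e + 1) x).comap (frL K n (e + 1))))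
  rw [hmapM] at hfM
  have hfT := LinearEquiv.finrank_eq (Submodule.equivMapOfInjective _ (frL_inj (n := n) (e + 1))
    ((TL R (e + 1) (up K F) x L).comap (frL K n (e + 1))))
  rw [hmapT] at hfT
  have hTM' : (TL R (e + 1) (up K F) x L).comap (frL K n (e + 1)) ≤
      (Md (e + 1) x).comap (frL K n (e + 1)) := Submodule.comap_mono hTM
  have hfle := Submodule.finrank_mono hTM'
  rw [hfM, hfT] at hfle
  obtain ⟨s, hs⟩ : ∃ s : ℕ, s + 2 = (r + 1) * (n - r + 1) :=
    ⟨(r + 1) * (n - r + 1) - 2, by omega⟩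
  obtain ⟨e0⟩ := exists_row_equiv (Cht.inj hJz) hs
  obtain ⟨ω, hω0, hωT, hωdet⟩ := hIOM R K n e r s (up K F) D' x L hSys hr hFx hxL J z hJz e0
  -- the form on the space of coefficients
  obtain ⟨φ, hφ⟩ : ∃ φ : ((Md (e + 1) x).comap (frL K n (e + 1))) →ₗ[K] Md (e + 1) x,
    φ = (frL K n (e + 1)).submoduleComap (Md (e + 1) x) := ⟨_, rfl⟩
  have hφv : ∀ g, ((φ g : Md (e + 1) x) : MvPolynomial (Fin (n + 1)) K) =
      frL K n (e + 1) (g : Mon (n + 1) (e + 1) → K) := by
    intro g
    rw [hφ]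
    rfl
  have hφs : Function.Surjective φ := by
    rintro ⟨w, hw⟩
    have h1 : frL K n (e + 1) (cv (e + 1) w) = w := frL_cv (hMS hw)
    refine ⟨⟨cv (e + 1) w, ?_⟩, ?_⟩
    · show frL K n (e + 1) (cv (e + 1) w) ∈ Md (e + 1) x
      rw [h1]
      exact hw
    · apply Subtype.ext
      rw [hφv]
      exact h1
  obtain ⟨ω', hω'⟩ : ∃ ω' : ((Md (e + 1) x).comap (frL K n (e + 1))) [⋀^Fin s]→ₗ[K] K,
    ω' = ω.compLinearMap φ := ⟨_, rfl⟩
  have hω'v : ∀ g, ω' g = ω fun i => φ (g i) := by
    intro g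
    rw [hω']
    rfl
  have hω'0 : ω' ≠ 0 := by
    intro h0
    apply hω0
    ext g
    choose g' hg' using fun i => hφs (g i)
    have h1 := hω'v g'
    rw [h0] at h1
    have h2 : (fun i => φ (g' i)) = g := funext hg'
    rw [h2] at h1
    exact h1.symm
  -- the divisor
  obtain ⟨b, hb⟩ : ∃ b : DV k K → ℤ, b = fun v => (r + 1) * mo v x + ordD v D +
    (v.ord (eval x (up K F)) - (e + 1) * mo v x) - (if v ∈ S then 1 else 0) +
      n * mo v (mnr z) := ⟨_, rfl⟩
  have hf1 : {v : DV k K | mo v x ≠ 0}.Finite := (hHG k K htr _ x).1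
  have hf2 : {v : DV k K | mo v (mnr z) ≠ 0}.Finite := (hHG k K htr _ (mnr z)).1
  have hf3 : {v : DV k K | ordD v D ≠ 0}.Finite :=
    Pool.Agent.H58.LV.dfi dor pfm rat k K htr D hD
  obtain ⟨hf4, hsum4⟩ := pfm k K htr (eval x (up K F))
  have hf5 : {v : DV k K | (if v ∈ S then (1 : ℤ) else 0) ≠ 0}.Finite := by
    refine S.finite_toSet.subset ?_
    intro v hv
    by_contra h0
    apply hv
    exact if_neg h0
  have hsum5 : ∑ᶠ v : DV k K, (if v ∈ S then (1 : ℤ) else 0) = S.card := by
    rw [finsum_eq_sum_of_support_subset (s := S)]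
    · rw [Finset.sum_ite_mem, Finset.inter_self, Finset.sum_const, nsmul_eq_mul, mul_one]
    · intro v hv
      by_contra h0
      apply hv
      exact if_neg h0
  have hbfin : {v | b v ≠ 0}.Finite := by
    refine ((((hf1.union hf2).union hf3).union hf4).union hf5).subset ?_
    intro v hv
    by_contra h0
    apply hv
    simp only [Set.mem_union, Set.mem_ofPred_eq, not_or, not_not] at h0
    obtain ⟨⟨⟨⟨h1, h2⟩, h3⟩, h4⟩, h5⟩ := h0
    rw [hb]
    simp only
    rw [h1, h2, h3, h4, h5]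
    ring
  have hbsum : ∑ᶠ v, b v = -(r + 1) * hgt k x - canDeg D + (e + 1) * hgt k x - S.card +
      n * dg k L := by
    have h1 : hgt k x = -∑ᶠ v : DV k K, mo v x := rfl
    have h2 : canDeg D = -∑ᶠ v : DV k K, ordD v D := rfl
    have h3 : dg k L = ∑ᶠ v : DV k K, mo v (mnr z) := ((hICE k K htr n r L hL).2 J z hJz).1
    have h4 : b = fun v => ((((r : ℤ) - e) * mo v x + ordD v D) + v.ord (eval x (up K F)) +
        -(if v ∈ S then 1 else 0)) + n * mo v (mnr z) := by
      rw [hb]
      funext v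
      ring
    have s1 : (Function.support fun v : DV k K => ((r : ℤ) - e) * mo v x).Finite :=
      hf1.subset fun v hv h0 => hv (by
        show ((r : ℤ) - e) * mo v x = 0
        rw [h0, mul_zero])
    have s2 : (Function.support fun v : DV k K => (n : ℤ) * mo v (mnr z)).Finite :=
      hf2.subset fun v hv h0 => hv (by
        show (n : ℤ) * mo v (mnr z) = 0
        rw [h0, mul_zero])
    have s5 : (Function.support fun v : DV k K => -(if v ∈ S then (1 : ℤ) else 0)).Finite :=
      hf5.subset fun v hv h0 => hv (by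
        show -(if v ∈ S then (1 : ℤ) else 0) = 0
        rw [h0, neg_zero])
    have s12 := (s1.union hf3).subset (Function.support_add _ _)
    have s123 := (s12.union hf4).subset (Function.support_add _ _)
    have s1234 := (s123.union s5).subset (Function.support_add _ _)
    rw [h4, finsum_add_distrib s1234 s2, finsum_add_distrib s123 s5, finsum_add_distrib s12 hf4,
      finsum_add_distrib s1 hf3, ← mul_finsum, ← mul_finsum, hsum4, finsum_neg_distrib, hsum5,
      h1, h2, h3]
    ring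
  -- the local estimate
  have hloc : ∀ (v : DV k K) (g : Fin s → ((Md (e + 1) x).comap (frL K n (e + 1)))),
      (∀ i j, ge v 0 (((g i : ((Md (e + 1) x).comap (frL K n (e + 1)))) :
        Mon (n + 1) (e + 1) → K) j)) → ge v (b v) (ω' g) := by
    intro v g hg
    have hG : ∀ i, (frL K n (e + 1) ((g i : ((Md (e + 1) x).comap (frL K n (e + 1)))) :
        Mon (n + 1) (e + 1) → K)) ∈ Md (e + 1) x := fun i => (g i).2
    have hGi : ∀ i m, ge v 0 (coeff m (frL K n (e + 1)
        ((g i : ((Md (e + 1) x).comap (frL K n (e + 1)))) : Mon (n + 1) (e + 1) → K))) := by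
      intro i m
      rcases coeff_homog (hMS (hG i)) m with h2 | ⟨M', h2⟩
      · rw [h2]; exact ge_zero v 0
      · rw [h2, cv_frL]; exact hg i M'
    choose τ hτ1 hτ2 using fun i => hILO R k K htr n e F D D' hD hDD' hSys.base hRat v _
      (hMS (hG i)) (hGi i)
    obtain ⟨J2, z2, hJ2, hz2⟩ := (hICE k K htr n r L hL).1 v
    obtain ⟨hB1, hB2⟩ := ((hICE k K htr n r L hL).2 J z hJz).2 v J2 z2 hJ2 hz2
    obtain ⟨e2⟩ := exists_row_equiv (Cht.inj hJ2) hs
    obtain ⟨ε, hε, hcc⟩ := hICC R K n r L J J2 z z2 hJz hJ2 x hxL (Fin s) e0 e2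
    have hval : ω' g = ε * (Matrix.of fun i j : Fin (r + 1) => z i (J2 j)).det ^ n *
        ((matF J2 z2 x D' τ).submatrix e2 id).det := by
      rw [hω'v, ← hcc]
      refine hωdet _ τ fun i => ?_
      rw [hφv]
      exact hτ2 i
    have h1 : ge v 0 ε := ge_of_sq hε
    have h2 : ge v (mo v (mnr z)) (Matrix.of fun i j : Fin (r + 1) => z i (J2 j)).det :=
      Or.inr hB2.ge
    have h3 : ge v ((r + 1) * mo v x + ordD v D +
        (v.ord (eval x (up K F)) - (e + 1) * mo v x) - (if v ∈ S then 1 else 0))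
        ((matF J2 z2 x D' τ).submatrix e2 id).det := by
      by_cases hv : v ∈ S
      · rw [if_pos hv]
        refine hILG R k K htr n e r F hF hsm D D' hD hDD' L v J2 z2 hJ2 hz2 x hxL hx0 hFx (Fin s)
          e2 τ hτ1 fun c => ?_
        rw [hτ2]
        exact (hG c).2
      · rw [if_neg hv, hS v hv]
        have h4 := hILC R k K htr n r D D' hD hDD' L v J2 z2 hJ2 hz2 x hxL hx0 (Fin s) e2 τ hτ1
        refine h4.mono ?_
        ring_nf
        exact le_refl _
    rw [hval]
    have h5 := (h1.mul (ge_pow h2 n)).mul h3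
    refine h5.mono ?_
    rw [hb]
    ring_nf
    exact le_refl _
  have hmain := hQDD k K htr (Mon (n + 1) (e + 1))
    ((TL R (e + 1) (up K F) x L).comap (frL K n (e + 1)))
    ((Md (e + 1) x).comap (frL K n (e + 1))) s hTM' (by rw [hfM, hfT]; omega) ω' hω'0 (by
      intro g hg
      rw [hω'v]
      apply hωT
      obtain ⟨i, hi⟩ := hg
      refine ⟨i, ?_⟩
      rw [hφv]
      exact hi) b hbfin hloc
  have hdd : dS k n (e + 1) (Md (e + 1) x) - dS k n (e + 1) (TL R (e + 1) (up K F) x L) ≤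
      -∑ᶠ v, b v := hmain
  rw [hbsum] at hdd
  refine hdd.trans (le_of_eq ?_)
  ring

end Pool.Agent.H96.EE
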